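import Pool.Agent.Lib.TATE.GA.Ct

/-!
# TATE/GA: GA2
-/

set_option autoImplicit false

open Polynomial Topology Metric

namespace TATE

theorem ct_near {p k : ℕ} {s w : Fin p → ℂ} {y : Fin k → ℂ} {P : (QS p)[X]}
    {R : Fin k → (QS p)[X]} {d e : QS p} {θ : ℂ} (h : IsDat s y P R d e θ) (γ : ℝ → ℂ)
    (hγ : Continuous γ) (hγ0 : γ 0 = 0) (f : ℝ → ℂ) (f1 : ContinuousOn f (Set.Icc 0 1))
    (f2 : f 0 = θ) (f3 : ∀ t ∈ Set.Icc (0 : ℝ) 1, (PS P (ln s w (γ t))).eval (f t) = 0)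
    (W : Set (Fin p → ℂ)) (hW : IsOpen W) (hs : s ∈ W) (η : (Fin p → ℂ) → ℂ) (η0 : η s = θ)
    (η1 : DifferentiableOn ℂ η W) (η2 : ∀ s' ∈ W, (PS P s').eval (η s') = 0) :
    ∃ ε > 0, ∀ t ∈ Set.Icc (0 : ℝ) 1, t < ε → ln s w (γ t) ∈ W ∧ f t = η (ln s w (γ t)) := by
  have hac : Continuous fun t => ln s w (γ t) := (continuous_ln s w).comp hγ
  have ha0 : ln s w (γ 0) = s := by rw [hγ0, ln_zero]
  obtain ⟨ξ, -, -, -, e4⟩ := simple_root P s θ h.root ((h.good _ h.e0).1.2 _ h.root)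
  have h0 : (0 : ℝ) ∈ Set.Icc (0 : ℝ) 1 := ⟨le_refl _, zero_le_one⟩
  have hc1 : ContinuousWithinAt (fun t => (ln s w (γ t), f t)) (Set.Icc 0 1) 0 :=
    hac.continuousWithinAt.prodMk (f1 0 h0)
  have hηs : ContinuousAt η (ln s w (γ 0)) := by
    rw [ha0]
    exact η1.continuousOn.continuousAt (hW.mem_nhds hs)
  have hc2' : ContinuousAt (fun t => η (ln s w (γ t))) 0 :=
    ContinuousAt.comp (g := η) (f := fun t => ln s w (γ t)) hηs hac.continuousAt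
  have hc2 : ContinuousWithinAt (fun t => (ln s w (γ t), η (ln s w (γ t)))) (Set.Icc 0 1) 0 :=
    hac.continuousWithinAt.prodMk hc2'.continuousWithinAt
  have g1 : ∀ᶠ v in 𝓝 (ln s w (γ 0), f 0), Fv P v = 0 → ξ v.1 = v.2 := by
    rw [ha0, f2]
    exact e4
  have g2 : ∀ᶠ v in 𝓝 (ln s w (γ 0), η (ln s w (γ 0))), Fv P v = 0 → ξ v.1 = v.2 := by
    rw [ha0, η0]
    exact e4
  have g3 : ∀ᶠ t in 𝓝[Set.Icc (0 : ℝ) 1] 0, ln s w (γ t) ∈ W :=
    hac.continuousWithinAt.eventually (by beta_reduce; rw [ha0]; exact hW.mem_nhds hs)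
  have g4 := (hc1.eventually g1).and ((hc2.eventually g2).and g3)
  obtain ⟨ε, hε, hb⟩ := Metric.mem_nhdsWithin_iff.1 g4
  refine ⟨ε, hε, fun t ht hlt => ?_⟩
  obtain ⟨k1, k2, k3⟩ := hb (show t ∈ ball 0 ε ∩ Set.Icc (0 : ℝ) 1 from
    ⟨by rw [mem_ball, Real.dist_eq, sub_zero, abs_of_nonneg ht.1]; exact hlt, ht⟩)
  exact ⟨k3, (k1 (f3 t ht)).symm.trans (k2 (η2 _ k3))⟩

/-- **GA2** -/
theorem tGA2 : StmtGA2 := by
  intro p k
  refine ⟨GS p k, GS_countable p k, fun s hs y hy => ?_⟩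
  obtain ⟨P, R, d, e, θ, hD⟩ := exists_dat s hs y hy
  obtain ⟨Q, c, c0, c1, c2⟩ := exists_coord s hs y hy
  obtain ⟨g, hg, gs, gy, η, η0, η1, η2, η3⟩ := exists_germ hD
  refine ⟨g, hg, gs, gy, fun s' hs' => ?_, fun w => ?_⟩
  · rw [η3]
    have hd := (hD.good _ (η2 s' hs').1).2
    exact hD.spc _ _ _ hd (η2 s' hs').2 fun i => vf_mul R d _ _ hd i
  · have hec : cf s (e * c) ≠ 0 := by
      rw [map_mul]
      exact mul_ne_zero hD.e0 c0
    refine ⟨{z | cf (ln s w z) (e * c) = 0}, bad_countable s w _ hec, ?_, ?_, ?_⟩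
    · intro h0
      have h1 : cf (ln s w 0) (e * c) = 0 := h0
      rw [ln_zero] at h1
      exact hec h1
    · intro z₀ hz₀ ξ ξ' hh h0
      refine loc_unique c1 c2 z₀ ?_ ξ ξ' hh h0
      intro hcon
      apply hz₀
      change cf (ln s w z₀) (e * c) = 0
      rw [map_mul, hcon, mul_zero]
    · intro γ z hγ
      have he : ∀ t ∈ Set.Icc (0 : ℝ) 1, cf (ln s w (γ t)) e ≠ 0 := by
        intro t ht hcon
        apply hγ.mem t ht
        change cf (ln s w (γ t)) (e * c) = 0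
        rw [map_mul, hcon, zero_mul]
      obtain ⟨f, f1, f2, f3, f4, f5⟩ := exists_ct hD γ hγ.cont hγ.src he
      refine ⟨fun t => vf R d (ln s w (γ t)) (f t), f4, f5, ?_, ?_⟩
      · obtain ⟨ε, hε, hb⟩ := ct_near hD γ hγ.cont hγ.src f f1 f2 f3 g.W g.op gs η η0 η1
          fun s' hs' => (η2 s' hs').2
        refine ⟨ε, hε, fun t ht hlt => ⟨(hb t ht hlt).1, ?_⟩⟩
        beta_reduce
        rw [η3, (hb t ht hlt).2]
      · intro hz
        have h1 : (1 : ℝ) ∈ Set.Icc (0 : ℝ) 1 := ⟨zero_le_one, le_refl _⟩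
        have ha1 : ln s w (γ 1) = s := by rw [hγ.tgt, hz, ln_zero]
        have hr := f3 1 h1
        rw [ha1] at hr
        beta_reduce
        rw [ha1]
        exact exists_sigma hD (f 1) _ hr fun i => vf_mul R d _ _ (hD.good _ hD.e0).2 i

end TATE
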