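import Pool.Agent.Lib.TATE.Iface

/-!
# TATE/GA: Baire (GA3) and algebraically independent points (GA4)
-/

set_option autoImplicit false

open Topology Metric

namespace TATE

theorem tGA3 : StmtGA3 := by
  intro p W C hW hC
  choose K hK hCK using hC
  have h : {s | ∃ n, s ∈ C n ∧ C n ∉ 𝓝 s} ⊆ ⋃ n, frontier (K n) := by
    rintro s ⟨n, hs, hn⟩
    rw [Set.mem_iUnion]
    refine ⟨n, ?_⟩
    rw [hCK n] at hs hn
    rw [(hK n).frontier_eq]
    refine ⟨hs.2, fun hi => hn ?_⟩
    exact Filter.inter_mem ((hW n).mem_nhds hs.1) (mem_interior_iff_mem_nhds.1 hi)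
  refine IsMeagre.mono h (isMeagre_iUnion fun n => ?_)
  refine IsNowhereDense.isMeagre ?_
  rw [IsClosed.isNowhereDense_iff isClosed_frontier]
  exact interior_frontier (hK n)

/-- a polynomial which vanishes on an open set is zero -/
theorem mvPoly_zero_of_open {p : ℕ} (f : MvPolynomial (Fin p) ℂ) (U : Set (Fin p → ℂ))
    (hU : IsOpen U) (hne : U.Nonempty) (h : ∀ s ∈ U, MvPolynomial.eval s f = 0) : f = 0 := by
  obtain ⟨s, hs⟩ := hne
  obtain ⟨ε, hε, hb⟩ := Metric.isOpen_iff.1 hU s hs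
  have hinf : ∀ i : Fin p, (ball (s i) ε).Infinite := fun i =>
    infinite_of_mem_nhds (s i) (ball_mem_nhds _ hε)
  refine MvPolynomial.funext_set (fun i => ball (s i) ε) hinf fun x hx => ?_
  rw [map_zero]
  refine h x (hb ?_)
  rw [mem_ball, dist_pi_lt_iff hε]
  intro i
  exact mem_ball.1 (hx i (Set.mem_univ i))

theorem tGA4 : StmtGA4 := by
  intro p
  have hc : Countable {f : MvPolynomial (Fin p) ℚ // f ≠ 0} := by
    have : Countable (MvPolynomial (Fin p) ℚ) := by
      rw [← Cardinal.mk_le_aleph0_iff]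
      refine MvPolynomial.cardinalMk_le_max_lift.trans ?_
      simp
    exact Subtype.countable
  have h : {s : Fin p → ℂ | ¬ AlgebraicIndependent ℚ s} ⊆
      ⋃ f : {f : MvPolynomial (Fin p) ℚ // f ≠ 0}, {s | MvPolynomial.aeval s f.1 = (0 : ℂ)} := by
    intro s hs
    rw [Set.mem_ofPred_eq, algebraicIndependent_iff] at hs
    push Not at hs
    obtain ⟨f, hf, hf0⟩ := hs
    exact Set.mem_iUnion.2 ⟨⟨f, hf0⟩, hf⟩
  refine IsMeagre.mono h (isMeagre_iUnion fun f => ?_)
  refine IsNowhereDense.isMeagre ?_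
  have hcl : IsClosed {s : Fin p → ℂ | MvPolynomial.aeval s f.1 = (0 : ℂ)} := by
    refine isClosed_eq ?_ continuous_const
    have he : (fun s : Fin p → ℂ => MvPolynomial.aeval s f.1) =
        fun s => MvPolynomial.eval s (MvPolynomial.map (algebraMap ℚ ℂ) f.1) := by
      funext s
      rw [MvPolynomial.eval_map, MvPolynomial.aeval_def]
    rw [he]
    exact MvPolynomial.continuous_eval _
  rw [hcl.isNowhereDense_iff, Set.eq_empty_iff_forall_notMem]
  intro s hs
  refine f.2 ?_
  have h0 := mvPoly_zero_of_open (MvPolynomial.map (algebraMap ℚ ℂ) f.1) _ isOpen_interior ⟨s, hs⟩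
    (fun t ht => by
      have h1 : t ∈ {s : Fin p → ℂ | MvPolynomial.aeval s f.1 = (0 : ℂ)} := interior_subset ht
      rw [MvPolynomial.eval_map, ← MvPolynomial.aeval_def]
      exact h1)
  refine MvPolynomial.map_injective (algebraMap ℚ ℂ) (algebraMap ℚ ℂ).injective ?_
  rw [h0, map_zero]

end TATE
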