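import Pool.Agent.Lib.TATE.GA.Ct

/-!
# TATE/GA: GA5
-/

set_option autoImplicit false

open Polynomial Topology Metric

namespace TATE

theorem cat_continuous {γ γ' : ℝ → ℂ} (h : Continuous γ) (h' : Continuous γ')
    (h1 : γ 1 = γ' 1) : Continuous (cat γ γ') := by
  unfold cat
  refine Continuous.if_le (h.comp (by fun_prop)) (h'.comp (by fun_prop)) continuous_id
    continuous_const fun t ht => ?_
  rw [ht]
  norm_num
  exact h1

theorem cat_path {D : Set ℂ} {γ γ' : ℝ → ℂ} {z z' : ℂ} (h : IsPth D γ z z')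
    (h' : IsPth D γ' z z') : IsPth D (cat γ γ') z z := by
  refine ⟨cat_continuous h.cont h'.cont (h.tgt.trans h'.tgt.symm), ?_, ?_, ?_⟩
  · unfold cat
    rw [if_pos (by norm_num), mul_zero]
    exact h.src
  · unfold cat
    rw [if_neg (by norm_num)]
    norm_num
    exact h'.src
  · intro t ht
    unfold cat
    split_ifs with hle
    · exact h.mem _ ⟨by linarith [ht.1], by linarith⟩
    · rw [not_le] at hle
      exact h'.mem _ ⟨by linarith [ht.2], by linarith⟩

/-- **GA5** -/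
theorem tGA5 : StmtGA5 := by
  classical
  intro p k s hs y hy w
  obtain ⟨P, R, d, e, θ, hD⟩ := exists_dat s hs y hy
  obtain ⟨Q, c, c0, c1, c2⟩ := exists_coord s hs y hy
  have hec : cf s (e * c) ≠ 0 := by
    rw [map_mul]
    exact mul_ne_zero hD.e0 c0
  set D : Set ℂ := {z | cf (ln s w z) (e * c) = 0} with hDdef
  have hc : ∀ z, z ∉ D → cf (ln s w z) c ≠ 0 := by
    intro z hz hcon
    apply hz
    change cf (ln s w z) (e * c) = 0
    rw [map_mul, hcon, mul_zero]
  have he : ∀ z, z ∉ D → cf (ln s w z) e ≠ 0 := by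
    intro z hz hcon
    apply hz
    change cf (ln s w z) (e * c) = 0
    rw [map_mul, hcon, zero_mul]
  have hex : ∀ γ z, IsPth D γ 0 z → ∃ y' : ℝ → (Fin k → ℂ), IsCt s w γ y' ∧ y' 0 = y := by
    intro γ z hγ
    obtain ⟨f, -, -, -, f4, f5⟩ := exists_ct hD γ hγ.cont hγ.src fun t ht =>
      he _ (hγ.mem t ht)
    exact ⟨_, f5, f4⟩
  have huq : ∀ γ z, IsPth D γ 0 z → ∀ u v : ℝ → (Fin k → ℂ), IsCt s w γ u → IsCt s w γ v →
      u 0 = y → v 0 = y → u 1 = v 1 := by
    intro γ z hγ u v hu hv hu0 hv0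
    obtain ⟨u1, u2⟩ := hu.props hγ.cont
    obtain ⟨v1, v2⟩ := hv.props hγ.cont
    rw [hu0] at u2
    rw [hv0] at v2
    exact path_unique c1 c2 (fun t => ln s w (γ t)) ((continuous_ln s w).comp hγ.cont) u v u1 v1
      (fun t ht => hc _ (hγ.mem t ht)) u2 v2 0 ⟨le_refl _, zero_le_one⟩ (hu0.trans hv0.symm) 1
      ⟨zero_le_one, le_refl _⟩
  let en : (ℝ → ℂ) → (Fin k → ℂ) := fun γ =>
    if h : ∃ y' : ℝ → (Fin k → ℂ), IsCt s w γ y' ∧ y' 0 = y then h.choose 1 else y
  have hen : ∀ γ, IsPth D γ 0 0 → ∀ y' : ℝ → (Fin k → ℂ), IsCt s w γ y' → y' 0 = y →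
      y' 1 = en γ := by
    intro γ hγ y' h1 h2
    have h : ∃ y' : ℝ → (Fin k → ℂ), IsCt s w γ y' ∧ y' 0 = y := ⟨y', h1, h2⟩
    have h3 : en γ = h.choose 1 := dif_pos h
    rw [h3]
    exact huq γ 0 hγ y' h.choose h1 h.choose_spec.1 h2 h.choose_spec.2
  refine ⟨D, bad_countable s w _ hec, ?_, en, hen, ?_⟩
  · intro h0
    have h1 : cf (ln s w 0) (e * c) = 0 := h0
    rw [ln_zero] at h1
    exact hec h1
  · intro γ γ' hγ hγ' heq
    have hcat := cat_path hγ hγ'
    obtain ⟨u, hu, hu0⟩ := hex γ 0 hγ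
    obtain ⟨v, hv, hv0⟩ := hex γ' 0 hγ'
    obtain ⟨x, hx, hx0⟩ := hex (cat γ γ') 0 hcat
    have e1 : u 1 = v 1 := by
      rw [hen γ hγ u hu hu0, hen γ' hγ' v hv hv0, heq]
    rw [← hen _ hcat x hx hx0]
    obtain ⟨u1, u2⟩ := hu.props hγ.cont
    obtain ⟨v1, v2⟩ := hv.props hγ'.cont
    obtain ⟨x1, x2⟩ := hx.props hcat.cont
    rw [hu0] at u2
    rw [hv0] at v2
    rw [hx0] at x2
    have a1 : ∀ t ∈ Set.Icc (0 : ℝ) 1, cat γ γ' (t / 2) = γ t := by
      intro t ht
      unfold cat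
      rw [if_pos (by linarith [ht.2])]
      congr 1
      ring
    have a2 : ∀ t ∈ Set.Icc (0 : ℝ) 1, cat γ γ' (1 - t / 2) = γ' t := by
      intro t ht
      unfold cat
      split_ifs with hle
      · have ht1 : t = 1 := le_antisymm ht.2 (by linarith)
        rw [ht1]
        norm_num
        exact hγ.tgt.trans hγ'.tgt.symm
      · congr 1
        ring
    have m1 : Set.MapsTo (fun t : ℝ => t / 2) (Set.Icc 0 1) (Set.Icc 0 1) := fun t ht =>
      ⟨by linarith [ht.1], by linarith [ht.2]⟩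
    have m2 : Set.MapsTo (fun t : ℝ => 1 - t / 2) (Set.Icc 0 1) (Set.Icc 0 1) := fun t ht =>
      ⟨by linarith [ht.2], by linarith [ht.1]⟩
    have b1 := path_unique c1 c2 (fun t => ln s w (γ t)) ((continuous_ln s w).comp hγ.cont)
      (fun t => x (t / 2)) u (x1.comp (by fun_prop) m1) u1
      (fun t ht => hc _ (hγ.mem t ht))
      (fun t ht => by
        have h3 := x2 (t / 2) (m1 ht)
        rw [a1 t ht] at h3
        exact h3) u2 0 ⟨le_refl _, zero_le_one⟩ (by
          rw [zero_div, hx0, hu0]) 1 ⟨zero_le_one, le_refl _⟩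
    have b2 := path_unique c1 c2 (fun t => ln s w (γ' t)) ((continuous_ln s w).comp hγ'.cont)
      (fun t => x (1 - t / 2)) v (x1.comp (by fun_prop) m2) v1
      (fun t ht => hc _ (hγ'.mem t ht))
      (fun t ht => by
        have h3 := x2 (1 - t / 2) (m2 ht)
        rw [a2 t ht] at h3
        exact h3) v2 1 ⟨zero_le_one, le_refl _⟩ (by
          rw [show (1 : ℝ) - 1 / 2 = 1 / 2 by norm_num, ← e1]
          exact b1) 0 ⟨le_refl _, zero_le_one⟩
    beta_reduce at b2
    rw [zero_div, sub_zero, hv0] at b2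
    exact b2

end TATE
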