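import Pool.Agent.Lib.TATE.GA.G1
import Pool.Agent.Lib.TATE.GA.G2
import Pool.Agent.Lib.TATE.GA.G3
import Pool.Agent.Lib.TATE.GA.G5

/-!
# TATE/GA: the package GA is complete
-/

set_option autoImplicit false

namespace TATE.GA

theorem cGA1 : StmtGA1 := tGA1

theorem cGA2 : StmtGA2 := tGA2

theorem cGA3 : StmtGA3 := tGA3

theorem cGA4 : StmtGA4 := tGA4

theorem cGA5 : StmtGA5 := tGA5

end TATE.GA
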