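import Mathlib

/-!
# TATE/GA: the kernel of `A[X] → ℂ` for a factorial ring `A ⊆ ℂ`; primitive elements
-/

set_option autoImplicit false

open Polynomial

namespace TATE

section

variable {A : Type} [CommRing A] [IsDomain A] [UniqueFactorizationMonoid A] [CharZero A]

/-- the kernel of `A[X] → ℂ`, `X ↦ θ`, is generated by a polynomial with simple roots -/
theorem kernel_gen (φ : A →+* ℂ) (hφ : Function.Injective φ) (θ : ℂ) (f : A[X]) (hf : f ≠ 0)
    (hfθ : f.eval₂ φ θ = 0) :
    ∃ (P U V : A[X]) (Δ : A), P.eval₂ φ θ = 0 ∧ P ≠ 0 ∧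
      (∀ θ' : ℂ, P.eval₂ φ θ' = 0 → ∀ g : A[X], g.eval₂ φ θ' = 0 → P ∣ g) ∧
      Δ ≠ 0 ∧ U * P + V * derivative P = C Δ := by
  have hprime : (RingHom.ker (eval₂RingHom φ θ)).IsPrime := RingHom.ker_isPrime _
  have hne : RingHom.ker (eval₂RingHom φ θ) ≠ ⊥ := by
    intro h0
    have h1 : f ∈ RingHom.ker (eval₂RingHom φ θ) := hfθ
    rw [h0, Ideal.mem_bot] at h1
    exact hf h1
  obtain ⟨P, hPI, hP⟩ := hprime.exists_mem_prime_of_ne_bot hne
  have hPθ : P.eval₂ φ θ = 0 := hPI
  have hdeg : P.natDegree ≠ 0 := by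
    intro h0
    rw [eq_C_of_natDegree_eq_zero h0, eval₂_C] at hPθ
    have h1 : P.coeff 0 = 0 := hφ (by rw [hPθ, map_zero])
    refine hP.ne_zero ?_
    rw [eq_C_of_natDegree_eq_zero h0, h1, C_0]
  let K := FractionRing A
  let ψ : K →+* ℂ := IsFractionRing.lift hφ
  have hψ : ∀ a : A, ψ (algebraMap A K a) = φ a := fun a => IsFractionRing.lift_algebraMap hφ a
  have hev : ∀ (g : A[X]) (x : ℂ), (g.map (algebraMap A K)).eval₂ ψ x = g.eval₂ φ x := by
    intro g x
    rw [eval₂_map]
    congr 1
    ext a
    exact hψ a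
  have hirr : Irreducible (P.map (algebraMap A K)) :=
    ((hP.irreducible.isPrimitive hdeg).irreducible_iff_irreducible_map_fraction_map).1
      hP.irreducible
  have hinj : Function.Injective (algebraMap A K) := IsFractionRing.injective A K
  have hchar : CharZero K := charZero_of_injective_algebraMap hinj
  refine ⟨P, ?_⟩
  have hmin : ∀ θ' : ℂ, P.eval₂ φ θ' = 0 → ∀ g : A[X], g.eval₂ φ θ' = 0 → P ∣ g := by
    intro θ' hPθ' g hg
    have h1 : P.map (algebraMap A K) ∣ g.map (algebraMap A K) := by
      by_contra hcon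
      obtain ⟨u, v, huv⟩ := (hirr.coprime_iff_not_dvd).2 hcon
      have h2 := congrArg (fun q : K[X] => q.eval₂ ψ θ') huv
      simp only [eval₂_add, eval₂_mul, hev, hPθ', hg, mul_zero, add_zero, eval₂_one] at h2
      exact zero_ne_one h2
    obtain ⟨q, hq⟩ := h1
    obtain ⟨b, hb, hb'⟩ := IsLocalization.integerNormalization_spec (nonZeroDivisors A) q
    set q' := IsLocalization.integerNormalization (nonZeroDivisors A) q with hq'
    have h3 : C b * g = P * q' := by
      refine map_injective (algebraMap A K) hinj ?_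
      rw [Polynomial.map_mul, Polynomial.map_mul, hb', hq, map_C, Algebra.smul_def,
        Polynomial.algebraMap_apply]
      ring
    have hb0 : b ≠ 0 := nonZeroDivisors.ne_zero hb
    rcases hP.dvd_or_dvd (Dvd.intro q' h3.symm) with h4 | h4
    · exfalso
      have h5 := natDegree_le_of_dvd h4 (by rwa [Ne, C_eq_zero])
      rw [natDegree_C] at h5
      exact hdeg (Nat.le_zero.1 h5)
    · exact h4
  have hsep : IsCoprime (P.map (algebraMap A K)) (derivative (P.map (algebraMap A K))) :=
    hirr.separable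
  obtain ⟨u, v, huv⟩ := hsep
  obtain ⟨b, hb, hb'⟩ := IsLocalization.integerNormalization_spec (nonZeroDivisors A) u
  obtain ⟨c, hc, hc'⟩ := IsLocalization.integerNormalization_spec (nonZeroDivisors A) v
  set u' := IsLocalization.integerNormalization (nonZeroDivisors A) u with hu'
  set v' := IsLocalization.integerNormalization (nonZeroDivisors A) v with hv'
  refine ⟨C c * u', C b * v', b * c, hPθ, hP.ne_zero, hmin,
    mul_ne_zero (nonZeroDivisors.ne_zero hb) (nonZeroDivisors.ne_zero hc), ?_⟩
  refine map_injective (algebraMap A K) hinj ?_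
  rw [Polynomial.map_add, Polynomial.map_mul, Polynomial.map_mul, Polynomial.map_mul,
    Polynomial.map_mul, hb', hc', map_C, map_C, map_C, Algebra.smul_def, Algebra.smul_def,
    Polynomial.algebraMap_apply, Polynomial.algebraMap_apply, map_mul, C_mul, ← derivative_map]
  linear_combination (C (algebraMap A K b) * C (algebraMap A K c)) * huv

end

end TATE
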