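import Mathlib

/-!
# TATE/GA: primitive elements with cleared denominators
-/

set_option autoImplicit false

open Polynomial

namespace TATE

section

variable {A : Type} [CommRing A] [IsDomain A] [CharZero A]

/-- finitely many numbers algebraic over `A` are polynomials in one -/
theorem prim_elem (φ : A →+* ℂ) (hφ : Function.Injective φ) {k : ℕ} (y : Fin k → ℂ)
    (hy : ∀ i, ∃ f : A[X], f ≠ 0 ∧ f.eval₂ φ (y i) = 0) :
    ∃ (θ : ℂ) (f : A[X]) (R : Fin k → A[X]) (d : A), f ≠ 0 ∧ f.eval₂ φ θ = 0 ∧ d ≠ 0 ∧
      ∀ i, (R i).eval₂ φ θ = φ d * y i := by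
  let K := FractionRing A
  let ψ : K →+* ℂ := IsFractionRing.lift hφ
  have hψ : ∀ a : A, ψ (algebraMap A K a) = φ a := fun a => IsFractionRing.lift_algebraMap hφ a
  have hev : ∀ (g : A[X]) (x : ℂ), (g.map (algebraMap A K)).eval₂ ψ x = g.eval₂ φ x := by
    intro g x
    rw [eval₂_map]
    congr 1
    ext a
    exact hψ a
  have hinj : Function.Injective (algebraMap A K) := IsFractionRing.injective A K
  have hchar : CharZero K := charZero_of_injective_algebraMap hinj
  letI : Algebra K ℂ := ψ.toAlgebra
  have hae : ∀ (g : K[X]) (x : ℂ), aeval x g = g.eval₂ ψ x := fun g x => rfl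
  have hint : ∀ i, IsIntegral K (y i) := by
    intro i
    obtain ⟨f, hf, hf0⟩ := hy i
    refine IsAlgebraic.isIntegral ⟨f.map (algebraMap A K), ?_, ?_⟩
    · exact (Polynomial.map_ne_zero_iff hinj).2 hf
    · rw [hae, hev, hf0]
  let L := IntermediateField.adjoin K (Set.range y)
  have hfin : FiniteDimensional K L :=
    IntermediateField.finiteDimensional_adjoin (by
      rintro x ⟨i, rfl⟩
      exact hint i)
  obtain ⟨α, hα⟩ := Field.exists_primitive_element K L
  have hαi : IsIntegral K α := IsIntegral.of_finite K α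
  have hmem : ∀ i, ∃ r : K[X], aeval (α : ℂ) r = y i := by
    intro i
    have h1 : (⟨y i, IntermediateField.subset_adjoin K _ ⟨i, rfl⟩⟩ : L) ∈
        IntermediateField.adjoin K {α} := by
      rw [hα]
      exact IntermediateField.mem_top
    rw [← IntermediateField.mem_toSubalgebra,
      IntermediateField.adjoin_simple_toSubalgebra_of_isAlgebraic hαi.isAlgebraic,
      Algebra.adjoin_singleton_eq_range_aeval] at h1
    obtain ⟨r, hr⟩ := h1
    refine ⟨r, ?_⟩
    have h2 : algebraMap L ℂ (aeval α r) = y i := congrArg (algebraMap L ℂ) hr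
    rw [← Polynomial.aeval_algebraMap_apply] at h2
    exact h2
  choose r hr using hmem
  choose b hb hb' using fun i => IsLocalization.integerNormalization_spec (nonZeroDivisors A) (r i)
  obtain ⟨c, hc, hc'⟩ := IsLocalization.integerNormalization_spec (nonZeroDivisors A)
    (minpoly K (α : ℂ))
  have hαi' : IsIntegral K (α : ℂ) := hαi.map (IntermediateField.val L)
  refine ⟨(α : ℂ), IsLocalization.integerNormalization (nonZeroDivisors A) (minpoly K (α : ℂ)),
    fun i => C (∏ j ∈ Finset.univ.erase i, b j) *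
      IsLocalization.integerNormalization (nonZeroDivisors A) (r i), ∏ j, b j, ?_, ?_, ?_, ?_⟩
  · rw [Ne, IsFractionRing.integerNormalization_eq_zero_iff]
    exact minpoly.ne_zero hαi'
  · rw [← hev, hc', Algebra.smul_def, Polynomial.algebraMap_apply, eval₂_mul, ← hae,
      ← hae, minpoly.aeval, mul_zero]
  · exact Finset.prod_ne_zero_iff.2 fun j _ => nonZeroDivisors.ne_zero (hb j)
  · intro i
    rw [eval₂_mul, eval₂_C, ← hev, hb', Algebra.smul_def, Polynomial.algebraMap_apply, eval₂_mul,
      eval₂_C, hψ, ← hae, hr, ← mul_assoc, ← map_mul,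
      Finset.prod_erase_mul _ _ (Finset.mem_univ i)]

end

end TATE
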