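import Pool.Agent.Lib.TATE.Iface
import Pool.Agent.Lib.MP_640417_ag.TATE.Ext

/-!
# TATE/GA: countable stable sets consist of algebraic points (GA1)
-/

set_option autoImplicit false

open Topology Metric

namespace TATE

/-- the field `ℚ(s)` -/
noncomputable abbrev Qs {p : ℕ} (s : Fin p → ℂ) : IntermediateField ℚ ℂ :=
  IntermediateField.adjoin ℚ (Set.range s)

instance Qs_countable {p : ℕ} (s : Fin p → ℂ) : Countable (Qs s) := by
  rw [← Cardinal.mk_le_aleph0_iff]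
  refine (IntermediateField.cardinalMk_adjoin_le ℚ (Set.range s)).trans ?_
  simp only [sup_le_iff, le_refl, and_true, Cardinal.mk_le_aleph0_iff]
  exact ⟨inferInstance, (Set.finite_range s).countable.to_subtype⟩

/-- the algebraic closure of `ℚ(s)` in `ℂ` -/
noncomputable def Ks {p : ℕ} (s : Fin p → ℂ) : Subfield ℂ :=
  (algebraicClosure (Qs s) ℂ).toSubfield

theorem mem_Ks {p : ℕ} {s : Fin p → ℂ} {a : ℂ} : a ∈ Ks s ↔ AlgO s a :=
  mem_algebraicClosure_iff

instance Ks_countable {p : ℕ} (s : Fin p → ℂ) : Countable (Ks s) := by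
  have h : {a : ℂ | IsAlgebraic (Qs s) a}.Countable := Algebraic.countable (Qs s) ℂ
  exact (h.mono fun a ha => mem_Ks.1 ha).to_subtype

theorem algO_gen {p : ℕ} (s : Fin p → ℂ) (i : Fin p) : AlgO s (s i) :=
  isAlgebraic_algebraMap (A := ℂ)
    (⟨s i, IntermediateField.subset_adjoin ℚ _ ⟨i, rfl⟩⟩ : Qs s)

theorem algO_of_Ks {p : ℕ} (s : Fin p → ℂ) {a : ℂ} (ha : IsAlgebraic (Ks s) a) : AlgO s a := by
  have ha' : IsAlgebraic (algebraicClosure (Qs s) ℂ) a := ha
  have : Algebra.IsAlgebraic (Qs s) (algebraicClosure (Qs s) ℂ) := inferInstance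
  exact ha'.restrictScalars (Qs s)

theorem tGA1 : StmtGA1 := by
  intro p k s A hA hAs S hS hst z hz i
  refine algO_of_Ks s ?_
  refine Pool.Agent.A640.Tate.isAlgebraic_of_countable_stable (Ks s) ((fun z => z i) '' S)
    (hS.image _) ?_ (z i) ⟨z, hz, rfl⟩
  rintro τ hτ _ ⟨y, hy, rfl⟩
  refine ⟨fun j => τ (y j), hst τ ⟨fun j => ?_, fun a ha => ?_⟩ y hy, rfl⟩
  · exact hτ ⟨s j, mem_Ks.2 (algO_gen s j)⟩
  · exact hτ ⟨a, mem_Ks.2 (hAs a ha)⟩

end TATE
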