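import Pool.Agent.Lib.TATE.GA.Rt2
import Pool.Agent.Lib.TATE.GA.Al
import Pool.Agent.Lib.TATE.GA.Al2
import Pool.Agent.Lib.TATE.GA.G1

/-!
# TATE/GA: the algebraic data of a point, persistence of relations
-/

set_option autoImplicit false

open Polynomial

namespace TATE

theorem PS_eval {p : ℕ} (P : (QS p)[X]) (s : Fin p → ℂ) (x : ℂ) :
    (PS P s).eval x = P.eval₂ (cf s) x := by
  rw [PS, eval_map]

theorem cf_injective {p : ℕ} {s : Fin p → ℂ} (hs : AlgebraicIndependent ℚ s) :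
    Function.Injective (cf s) :=
  algebraicIndependent_iff_injective_aeval.1 hs

open IntermediateField.algebraAdjoinAdjoin in
/-- algebraic over `ℚ(s)` means algebraic over `ℚ[S]` -/
theorem algO_poly {p : ℕ} {s : Fin p → ℂ} (hs : AlgebraicIndependent ℚ s) {a : ℂ}
    (ha : AlgO s a) : ∃ f : (QS p)[X], f ≠ 0 ∧ f.eval₂ (cf s) a = 0 := by
  have h1 : IsAlgebraic (Algebra.adjoin ℚ (Set.range s)) a :=
    (IsFractionRing.isAlgebraic_iff (Algebra.adjoin ℚ (Set.range s))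
      (IntermediateField.adjoin ℚ (Set.range s)) ℂ).2 ha
  obtain ⟨g, hg, hg0⟩ := h1
  refine ⟨g.map (hs.aevalEquiv.symm : Algebra.adjoin ℚ (Set.range s) →+* QS p), ?_, ?_⟩
  · rw [Ne, Polynomial.map_eq_zero_iff]
    · exact hg
    · exact hs.aevalEquiv.symm.injective
  · rw [eval₂_map]
    rw [aeval_def] at hg0
    have h2 : (cf s).comp (hs.aevalEquiv.symm : Algebra.adjoin ℚ (Set.range s) →+* QS p) =
        algebraMap (Algebra.adjoin ℚ (Set.range s)) ℂ := by
      ext x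
      have h3 := hs.aevalEquiv.apply_symm_apply x
      have h4 := congrArg (fun u : Algebra.adjoin ℚ (Set.range s) => (u : ℂ)) h3
      exact h4
    rw [h2]
    exact hg0

/-- clearing the denominator `d` in a polynomial relation -/
theorem clear_den {p k : ℕ} (R : Fin k → (QS p)[X]) (d : QS p)
    (f : MvPolynomial (Fin p ⊕ Fin k) ℚ) :
    ∃ (N : ℕ) (g : (QS p)[X]), ∀ (s : Fin p → ℂ) (x : ℂ) (y : Fin k → ℂ),
      (∀ i, (R i).eval₂ (cf s) x = cf s d * y i) →
      cf s d ^ N * MvPolynomial.aeval (Sum.elim s y) f = g.eval₂ (cf s) x := by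
  induction f using MvPolynomial.induction_on with
  | C a =>
    refine ⟨0, C (MvPolynomial.C a), fun s x y _ => ?_⟩
    rw [pow_zero, one_mul, eval₂_C, MvPolynomial.aeval_C]
    exact (MvPolynomial.aeval_C s a).symm
  | add f g hf hg =>
    obtain ⟨N, u, hu⟩ := hf
    obtain ⟨M, v, hv⟩ := hg
    refine ⟨N + M, C d ^ M * u + C d ^ N * v, fun s x y h => ?_⟩
    rw [map_add, eval₂_add, eval₂_mul, eval₂_mul, eval₂_pow, eval₂_pow, eval₂_C, ← hu s x y h,
      ← hv s x y h]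
    ring
  | mul_X f i hf =>
    obtain ⟨N, u, hu⟩ := hf
    rcases i with i | i
    · refine ⟨N, u * C (MvPolynomial.X i), fun s x y h => ?_⟩
      rw [map_mul, MvPolynomial.aeval_X, eval₂_mul, eval₂_C, ← hu s x y h, Sum.elim_inl]
      have h1 : cf s (MvPolynomial.X i) = s i := MvPolynomial.aeval_X s i
      rw [h1]
      ring
    · refine ⟨N + 1, u * R i, fun s x y h => ?_⟩
      rw [map_mul, MvPolynomial.aeval_X, eval₂_mul, ← hu s x y h, h i, Sum.elim_inr]
      ring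

/-- `(P, R, d, e)` describes `y` algebraic over `ℚ(s)`: `P (s, θ) = 0`, `R_i (s, θ) = d y_i`, `P` has full
degree and simple roots where `e ≠ 0` -/
structure IsDat {p k : ℕ} (s : Fin p → ℂ) (y : Fin k → ℂ) (P : (QS p)[X])
    (R : Fin k → (QS p)[X]) (d e : QS p) (θ : ℂ) : Prop where
  e0 : cf s e ≠ 0
  good : ∀ s', cf s' e ≠ 0 → GoodAt P s' ∧ cf s' d ≠ 0
  root : (PS P s).eval θ = 0
  val : ∀ i, (PS (R i) s).eval θ = cf s d * y i
  spc : ∀ (s' : Fin p → ℂ) (θ' : ℂ) (y' : Fin k → ℂ), cf s' d ≠ 0 → (PS P s').eval θ' = 0 →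
    (∀ i, (PS (R i) s').eval θ' = cf s' d * y' i) → Spc s y s' y'
  ker : ∀ θ' : ℂ, (PS P s).eval θ' = 0 → ∀ g : (QS p)[X], g.eval₂ (cf s) θ' = 0 → P ∣ g

theorem good_of_bezout {p : ℕ} {P U V : (QS p)[X]} {Δ : QS p}
    (h : U * P + V * derivative P = C Δ) {s : Fin p → ℂ} (hΔ : cf s Δ ≠ 0) (x : ℂ)
    (hx : (PS P s).eval x = 0) : (PS (derivative P) s).eval x ≠ 0 := by
  intro h0
  have h1 := congrArg (fun q : (QS p)[X] => q.eval₂ (cf s) x) h
  simp only [eval₂_add, eval₂_mul, eval₂_C] at h1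
  rw [PS_eval] at hx h0
  rw [hx, h0, mul_zero, mul_zero, add_zero] at h1
  exact hΔ h1.symm

theorem exists_dat {p k : ℕ} (s : Fin p → ℂ) (hs : AlgebraicIndependent ℚ s) (y : Fin k → ℂ)
    (hy : ∀ i, AlgO s (y i)) :
    ∃ (P : (QS p)[X]) (R : Fin k → (QS p)[X]) (d e : QS p) (θ : ℂ), IsDat s y P R d e θ := by
  have hinj := cf_injective hs
  obtain ⟨θ, f, R, d, hf, hfθ, hd, hR⟩ := prim_elem (cf s) hinj y fun i => algO_poly hs (hy i)
  obtain ⟨P, U, V, Δ, h1, h2, h3, h4, h5⟩ := kernel_gen (cf s) hinj θ f hf hfθ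
  have hne : ∀ a : QS p, a ≠ 0 → cf s a ≠ 0 := fun a ha h0 => ha (hinj (by rw [h0, map_zero]))
  refine ⟨P, R, d, P.leadingCoeff * Δ * d, θ, ?_, ?_, ?_, ?_, ?_, ?_⟩
  · exact hne _ (mul_ne_zero (mul_ne_zero (leadingCoeff_ne_zero.2 h2) h4) hd)
  · intro s' hs'
    rw [map_mul, map_mul] at hs'
    have ha := left_ne_zero_of_mul (left_ne_zero_of_mul hs')
    have hb := right_ne_zero_of_mul (left_ne_zero_of_mul hs')
    have hc := right_ne_zero_of_mul hs'
    exact ⟨⟨ha, fun x hx => good_of_bezout h5 hb x hx⟩, hc⟩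
  · rw [PS_eval]
    exact h1
  · intro i
    rw [PS_eval]
    exact hR i
  · intro s' θ' y' hd' hP' hR' g hg
    obtain ⟨N, u, hu⟩ := clear_den R d g
    have e1 := hu s θ y hR
    rw [hg, mul_zero] at e1
    obtain ⟨q, hq⟩ := h3 θ h1 u e1.symm
    have e2 := hu s' θ' y' (fun i => by rw [← PS_eval]; exact hR' i)
    rw [hq, eval₂_mul, ← PS_eval P, hP', zero_mul] at e2
    exact (mul_eq_zero.1 e2).resolve_left (pow_ne_zero N hd')
  · intro θ' hθ' g hg
    exact h3 θ' (by rw [← PS_eval]; exact hθ') g hg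

end TATE
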