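import Pool.Agent.Lib.TATE.GA.Ln

/-!
# TATE/GA: continuation along a path
-/

set_option autoImplicit false

open Polynomial Topology Metric

namespace TATE

/-- **CONTINUATION** -/
theorem exists_ct {p k : ℕ} {s w : Fin p → ℂ} {y : Fin k → ℂ} {P : (QS p)[X]}
    {R : Fin k → (QS p)[X]} {d e : QS p} {θ : ℂ} (h : IsDat s y P R d e θ) (γ : ℝ → ℂ)
    (hγ : Continuous γ) (hγ0 : γ 0 = 0) (he : ∀ t ∈ Set.Icc (0 : ℝ) 1, cf (ln s w (γ t)) e ≠ 0) :
    ∃ f : ℝ → ℂ, ContinuousOn f (Set.Icc 0 1) ∧ f 0 = θ ∧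
      (∀ t ∈ Set.Icc (0 : ℝ) 1, (PS P (ln s w (γ t))).eval (f t) = 0) ∧
      vf R d (ln s w (γ 0)) (f 0) = y ∧
      IsCt s w γ (fun t => vf R d (ln s w (γ t)) (f t)) := by
  set a : ℝ → (Fin p → ℂ) := fun t => ln s w (γ t) with ha
  have hac : Continuous a := (continuous_ln s w).comp hγ
  have ha0 : a 0 = s := by
    simp only [ha, hγ0]
    exact ln_zero s w
  obtain ⟨f, f1, f2, f3⟩ := root_lift P a hac (fun t ht => (h.good _ (he t ht)).1) θ
    (by rw [ha0]; exact h.root)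
  have hd0 : cf s d ≠ 0 := (h.good s h.e0).2
  have hy0 : vf R d (a 0) (f 0) = y := by
    rw [ha0, f2]
    funext i
    have h3 := vf_mul R d s θ hd0 i
    rw [h.val i] at h3
    exact (mul_left_cancel₀ hd0 h3).symm
  refine ⟨f, f1, f2, f3, hy0, ⟨fun t ht => ?_⟩⟩
  obtain ⟨η, e1, e2, e3, e4⟩ := simple_root P (a t) (f t) (f3 t ht)
    ((h.good _ (he t ht)).1.2 _ (f3 t ht))
  have e5 : ∀ᶠ s' in 𝓝 (a t), cf s' e ≠ 0 :=
    (contDiff_cf e).continuous.continuousAt.eventually_ne (he t ht)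
  have e6 : ∀ᶠ z in 𝓝 (γ t), DifferentiableAt ℂ η (ln s w z) ∧
      (PS P (ln s w z)).eval (η (ln s w z)) = 0 ∧ cf (ln s w z) e ≠ 0 :=
    (continuous_ln s w).continuousAt.eventually (e2.and (e3.and e5))
  obtain ⟨ε, hε, hb⟩ := Metric.eventually_nhds_iff_ball.1 e6
  have hpair : ContinuousWithinAt (fun t' => (a t', f t')) (Set.Icc 0 1) t :=
    hac.continuousWithinAt.prodMk (f1 t ht)
  have e7 : ∀ᶠ t' in 𝓝[Set.Icc 0 1] t, Fv P (a t', f t') = 0 → η (a t') = f t' :=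
    hpair.eventually e4
  have e8 : ∀ᶠ t' in 𝓝[Set.Icc (0 : ℝ) 1] t, γ t' ∈ ball (γ t) ε :=
    hγ.continuousWithinAt.eventually (ball_mem_nhds _ hε)
  obtain ⟨δ, hδ, hb'⟩ := Metric.mem_nhdsWithin_iff.1 (e7.and e8)
  refine ⟨ε, hε, δ, hδ, fun z => vf R d (ln s w z) (η (ln s w z)), ?_, ?_, ?_⟩
  · refine vf_hol R d (ball (γ t) ε) (ln s w) (fun z => η (ln s w z))
      (differentiable_ln s w).differentiableOn ?_ fun z hz => (h.good _ (hb z hz).2.2).2
    intro z hz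
    exact ((hb z hz).1.comp z (differentiable_ln s w z)).differentiableWithinAt
  · intro z hz
    have hd := (h.good _ (hb z hz).2.2).2
    beta_reduce
    rw [hy0]
    exact h.spc _ _ _ hd (hb z hz).2.1 fun i => vf_mul R d _ _ hd i
  · intro t' ht' hd
    have h9 := hb' ⟨by rw [mem_ball, Real.dist_eq]; exact hd, ht'⟩
    refine ⟨h9.2, ?_⟩
    have h10 := h9.1 (f3 t' ht')
    beta_reduce
    change vf R d (a t') (f t') = vf R d (a t') (η (a t'))
    rw [h10]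

/-- a continuation is continuous and all relations persist -/
theorem IsCt.props {p k : ℕ} {s w : Fin p → ℂ} {γ : ℝ → ℂ} {y : ℝ → (Fin k → ℂ)}
    (hγ : Continuous γ) (h : IsCt s w γ y) : ContinuousOn y (Set.Icc 0 1) ∧
      ∀ t ∈ Set.Icc (0 : ℝ) 1, Spc s (y 0) (ln s w (γ t)) (y t) := by
  constructor
  · intro t ht
    obtain ⟨ε, hε, δ, hδ, η, h1, h2, h3⟩ := h.loc t ht
    have h4 : ContinuousWithinAt (fun t' => η (γ t')) (Set.Icc 0 1) t := by
      have h5 : ContinuousAt η (γ t) :=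
        (h1.continuousOn.continuousAt (ball_mem_nhds _ hε))
      exact (ContinuousAt.comp (g := η) (f := γ) h5 hγ.continuousAt).continuousWithinAt
    have h6 := (h3 t ht (by rw [sub_self, abs_zero]; exact hδ)).2
    refine h4.congr_of_eventuallyEq ?_ h6
    have h7 : ∀ᶠ t' in 𝓝[Set.Icc (0 : ℝ) 1] t, t' ∈ ball t δ ∧ t' ∈ Set.Icc (0 : ℝ) 1 :=
      (Filter.Eventually.and (mem_nhdsWithin_of_mem_nhds (ball_mem_nhds t hδ))
        self_mem_nhdsWithin)
    filter_upwards [h7] with t' ht'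
    refine (h3 t' ht'.2 ?_).2
    have h8 := ht'.1
    rw [mem_ball, Real.dist_eq] at h8
    exact h8
  · intro t ht
    obtain ⟨ε, hε, δ, hδ, η, h1, h2, h3⟩ := h.loc t ht
    have h6 := (h3 t ht (by rw [sub_self, abs_zero]; exact hδ)).2
    rw [h6]
    exact h2 (γ t) (mem_ball_self hε)

end TATE
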