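import Pool.Agent.Lib.TATE.GA.Rt2

/-!
# TATE/GA: lifting a root along a path
-/

set_option autoImplicit false

open Topology Metric Set

namespace TATE

/-- a continuous root on `[0, t]` -/
def Lf3 {p : ℕ} (P : Polynomial (QS p)) (a : ℝ → (Fin p → ℂ)) (x₀ : ℂ) (t : ℝ) : Prop :=
  ∃ f : ℝ → ℂ, ContinuousOn f (Icc 0 t) ∧ f 0 = x₀ ∧
    ∀ u ∈ Icc 0 t, (PS P (a u)).eval (f u) = 0

theorem Lf_step {p : ℕ} (P : Polynomial (QS p)) (a : ℝ → (Fin p → ℂ)) (ha : Continuous a)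
    (x₀ : ℂ) (t : ℝ) (hg : GoodAt P (a t)) :
    ∃ δ > 0, ∀ t₁ t₂ : ℝ, 0 ≤ t₁ → |t₁ - t| < δ → |t₂ - t| < δ → t₁ ≤ t₂ → Lf3 P a x₀ t₁ →
      Lf3 P a x₀ t₂ := by
  obtain ⟨ε, hε, η, h1, h2⟩ := branches P (a t) hg
  obtain ⟨δ, hδ, hb⟩ := Metric.continuousAt_iff.1 (ha.continuousAt (x := t)) ε hε
  refine ⟨δ, hδ, fun t₁ t₂ h0 ht₁ ht₂ h12 hL => ?_⟩
  obtain ⟨f, f1, f2, f3⟩ := hL
  have hball : ∀ u, |u - t| < δ → a u ∈ ball (a t) ε := fun u hu =>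
    hb (by rw [Real.dist_eq]; exact hu)
  obtain ⟨j, hj⟩ := (h2 (a t₁) (hball t₁ ht₁) (f t₁)).1 (f3 t₁ ⟨h0, le_refl _⟩)
  have hmid : ∀ u ∈ Icc t₁ t₂, |u - t| < δ := by
    intro u hu
    rw [abs_lt] at ht₁ ht₂ ⊢
    constructor
    · linarith [hu.1, hu.2, ht₁.1, ht₁.2, ht₂.1, ht₂.2]
    · linarith [hu.1, hu.2, ht₁.1, ht₁.2, ht₂.1, ht₂.2]
  refine ⟨fun u => if u ≤ t₁ then f u else η j (a u), ?_, ?_, ?_⟩
  · have hU : Icc 0 t₂ = Icc 0 t₁ ∪ Icc t₁ t₂ := (Icc_union_Icc_eq_Icc h0 h12).symm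
    rw [hU]
    refine ContinuousOn.union_of_isClosed ?_ ?_ isClosed_Icc isClosed_Icc
    · refine f1.congr fun u hu => ?_
      rw [if_pos hu.2]
    · have hc : ContinuousOn (fun u => η j (a u)) (Icc t₁ t₂) :=
        (h1 j).continuousOn.comp ha.continuousOn fun u hu => hball u (hmid u hu)
      refine hc.congr fun u hu => ?_
      by_cases hle : u ≤ t₁
      · have hut : u = t₁ := le_antisymm hle hu.1
        rw [if_pos hle, hut]
        exact hj.symm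
      · rw [if_neg hle]
  · beta_reduce
    rw [if_pos h0]
    exact f2
  · intro u hu
    beta_reduce
    by_cases hle : u ≤ t₁
    · rw [if_pos hle]
      exact f3 u ⟨hu.1, hle⟩
    · rw [if_neg hle]
      have hu' : u ∈ Icc t₁ t₂ := ⟨(not_le.1 hle).le, hu.2⟩
      exact (h2 (a u) (hball u (hmid u hu')) _).2 ⟨j, rfl⟩

theorem Lf_mono {p : ℕ} {P : Polynomial (QS p)} {a : ℝ → (Fin p → ℂ)} {x₀ : ℂ} {t t' : ℝ}
    (h : Lf3 P a x₀ t) (htt : t' ≤ t) : Lf3 P a x₀ t' := by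
  obtain ⟨f, f1, f2, f3⟩ := h
  exact ⟨f, f1.mono (Icc_subset_Icc_right htt), f2, fun u hu => f3 u ⟨hu.1, hu.2.trans htt⟩⟩

/-- **LIFTING** -/
theorem root_lift {p : ℕ} (P : Polynomial (QS p)) (a : ℝ → (Fin p → ℂ)) (ha : Continuous a)
    (hg : ∀ t ∈ Icc (0 : ℝ) 1, GoodAt P (a t)) (x₀ : ℂ) (h0 : (PS P (a 0)).eval x₀ = 0) :
    ∃ f : ℝ → ℂ, ContinuousOn f (Icc 0 1) ∧ f 0 = x₀ ∧
      ∀ u ∈ Icc (0 : ℝ) 1, (PS P (a u)).eval (f u) = 0 := by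
  have hsub : Icc (0 : ℝ) 1 ⊆ {t | Lf3 P a x₀ t} := by
    refine IsClosed.Icc_subset_of_forall_mem_nhdsWithin ?_ ?_ ?_
    · refine isClosed_of_closure_subset fun t ht => ?_
      have ht01 : t ∈ Icc (0 : ℝ) 1 := by
        have h1 : closure ({t | Lf3 P a x₀ t} ∩ Icc (0 : ℝ) 1) ⊆ Icc 0 1 :=
          closure_minimal inter_subset_right isClosed_Icc
        exact h1 ht
      obtain ⟨δ, hδ, hs⟩ := Lf_step P a ha x₀ t (hg t ht01)
      obtain ⟨t₁, ht₁, hd⟩ := Metric.mem_closure_iff.1 ht δ hδ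
      refine ⟨?_, ht01⟩
      rcases le_total t₁ t with hle | hle
      · refine hs t₁ t ht₁.2.1 ?_ ?_ hle ht₁.1
        · rw [dist_comm, Real.dist_eq] at hd
          exact hd
        · rw [sub_self, abs_zero]
          exact hδ
      · exact Lf_mono ht₁.1 hle
    · refine ⟨fun _ => x₀, continuousOn_const, rfl, fun u hu => ?_⟩
      have hu0 : u = 0 := le_antisymm hu.2 hu.1
      rw [hu0]
      exact h0
    · rintro t ⟨ht, ht0, ht1⟩
      obtain ⟨δ, hδ, hs⟩ := Lf_step P a ha x₀ t (hg t ⟨ht0, ht1.le⟩)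
      refine mem_nhdsWithin_of_mem_nhds ?_
      refine Filter.mem_of_superset (Metric.ball_mem_nhds t hδ) fun t₂ ht₂ => ?_
      rw [mem_ball, Real.dist_eq] at ht₂
      rcases le_total t t₂ with hle | hle
      · refine hs t t₂ ht0 ?_ ht₂ hle ht
        rw [sub_self, abs_zero]
        exact hδ
      · exact Lf_mono ht hle
  exact hsub (right_mem_Icc.2 zero_le_one)

end TATE
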