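import Pool.Agent.Lib.TATE.GA.Sg
import Pool.Agent.Lib.TATE.GA.Rt3

/-!
# TATE/GA: countably many germs
-/

set_option autoImplicit false

open Polynomial Topology Metric

namespace TATE

/-- the functions `R_i (s, x) / d (s)` -/
noncomputable def vf {p k : ℕ} (R : Fin k → (QS p)[X]) (d : QS p) (s : Fin p → ℂ) (x : ℂ) :
    Fin k → ℂ := fun i => (PS (R i) s).eval x / cf s d

theorem vf_mul {p k : ℕ} (R : Fin k → (QS p)[X]) (d : QS p) (s : Fin p → ℂ) (x : ℂ)
    (hd : cf s d ≠ 0) (i : Fin k) : (PS (R i) s).eval x = cf s d * vf R d s x i := by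
  unfold vf
  rw [mul_div_cancel₀ _ hd]

theorem differentiable_cf {p : ℕ} (f : QS p) : Differentiable ℂ fun s : Fin p → ℂ => cf s f :=
  (contDiff_cf f).differentiable (by simp)

theorem vf_hol {E : Type} [NormedAddCommGroup E] [NormedSpace ℂ E] {p k : ℕ}
    (R : Fin k → (QS p)[X]) (d : QS p) (U : Set E) (a : E → (Fin p → ℂ)) (η : E → ℂ)
    (ha : DifferentiableOn ℂ a U) (hη : DifferentiableOn ℂ η U)
    (hd : ∀ s ∈ U, cf (a s) d ≠ 0) : DifferentiableOn ℂ (fun s => vf R d (a s) (η s)) U := by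
  rw [differentiableOn_pi]
  intro i
  have h1 : DifferentiableOn ℂ (fun s => Fv (R i) (a s, η s)) U :=
    ((contDiff_Fv (R i)).differentiable (by simp)).comp_differentiableOn (ha.prodMk hη)
  have h2 : DifferentiableOn ℂ (fun s => cf (a s) d) U :=
    (differentiable_cf d).comp_differentiableOn ha
  have h3 : DifferentiableOn ℂ (fun s => Fv (R i) (a s, η s) * (cf (a s) d)⁻¹) U :=
    h1.mul (h2.fun_inv hd)
  refine h3.congr fun s _ => ?_
  exact div_eq_mul_inv _ _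

/-- a full system of branches on a ball -/
def FullB {p : ℕ} (P : (QS p)[X]) (e : QS p) (q : Fin p → ℂ) (ρ : ℝ)
    (η : Fin P.natDegree → (Fin p → ℂ) → ℂ) : Prop :=
  (∀ j, DifferentiableOn ℂ (η j) (ball q ρ)) ∧
    ∀ s ∈ ball q ρ, cf s e ≠ 0 ∧ ∀ x, (PS P s).eval x = 0 ↔ ∃ j, η j s = x

/-- the germ of a branch -/
noncomputable def grm {p k : ℕ} (P : (QS p)[X]) (R : Fin k → (QS p)[X]) (d e : QS p)
    (q : Fin p → ℂ) (ρ : ℝ) (hd : ∀ s, cf s e ≠ 0 → cf s d ≠ 0) (h : ∃ η, FullB P e q ρ η)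
    (j : Fin P.natDegree) : Grm p k where
  W := ball q ρ
  Y := fun s => vf R d s (h.choose j s)
  op := isOpen_ball
  hol := vf_hol R d (ball q ρ) (fun s => s) (h.choose j) differentiableOn_id
    (h.choose_spec.1 j) fun s hs => hd s (h.choose_spec.2 s hs).1

/-- rational points -/
noncomputable def qc {p : ℕ} (q : Fin p → ℚ × ℚ) : Fin p → ℂ :=
  fun i => ((q i).1 : ℂ) + ((q i).2 : ℂ) * Complex.I

theorem exists_qc {p : ℕ} (s : Fin p → ℂ) (ε : ℝ) (hε : 0 < ε) :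
    ∃ q : Fin p → ℚ × ℚ, dist (qc q) s < ε := by
  have h1 : ∀ x : ℝ, ∃ a : ℚ, |(a : ℝ) - x| < ε / 2 := by
    intro x
    obtain ⟨a, ha1, ha2⟩ := exists_rat_btwn (show x < x + ε / 2 by linarith)
    refine ⟨a, ?_⟩
    rw [abs_lt]
    constructor <;> linarith
  choose f hf using h1
  refine ⟨fun i => (f (s i).re, f (s i).im), ?_⟩
  rw [dist_pi_lt_iff hε]
  intro i
  rw [Complex.dist_eq]
  refine (Complex.norm_le_abs_re_add_abs_im _).trans_lt ?_
  have e1 : (qc (fun i => (f (s i).re, f (s i).im)) i - s i).re = (f (s i).re : ℝ) - (s i).re := by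
    simp [qc]
  have e2 : (qc (fun i => (f (s i).re, f (s i).im)) i - s i).im = (f (s i).im : ℝ) - (s i).im := by
    simp [qc]
  rw [e1, e2]
  linarith [hf (s i).re, hf (s i).im]

/-- the countable set of germs -/
noncomputable def GS (p k : ℕ) : Set (Grm p k) :=
  ⋃ (P : (QS p)[X]), ⋃ (R : Fin k → (QS p)[X]), ⋃ (d : QS p), ⋃ (e : QS p),
    ⋃ (q : Fin p → ℚ × ℚ), ⋃ (ρ : ℚ), ⋃ (hd : ∀ s : Fin p → ℂ, cf s e ≠ 0 → cf s d ≠ 0),
    ⋃ (h : ∃ η, FullB P e (qc q) (ρ : ℝ) η), ⋃ (j : Fin P.natDegree),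
      {grm P R d e (qc q) (ρ : ℝ) hd h j}

theorem GS_countable (p k : ℕ) : (GS p k).Countable := by
  unfold GS
  refine Set.countable_iUnion fun P => Set.countable_iUnion fun R => Set.countable_iUnion fun d =>
    Set.countable_iUnion fun e => Set.countable_iUnion fun q => Set.countable_iUnion fun ρ =>
    Set.countable_iUnion fun hd => Set.countable_iUnion fun h => Set.countable_iUnion fun j =>
    Set.countable_singleton _

/-- the germ of `y` at `s` -/
theorem exists_germ {p k : ℕ} {s : Fin p → ℂ} {y : Fin k → ℂ} {P : (QS p)[X]}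
    {R : Fin k → (QS p)[X]} {d e : QS p} {θ : ℂ} (h : IsDat s y P R d e θ) :
    ∃ g ∈ GS p k, s ∈ g.W ∧ g.Y s = y ∧ ∃ η : (Fin p → ℂ) → ℂ, η s = θ ∧
      DifferentiableOn ℂ η g.W ∧ (∀ s' ∈ g.W, cf s' e ≠ 0 ∧ (PS P s').eval (η s') = 0) ∧
      ∀ s', g.Y s' = vf R d s' (η s') := by
  have hG := (h.good s h.e0).1
  obtain ⟨ε, hε, η, h1, h2⟩ := branches P s hG
  obtain ⟨ε', hε', hb⟩ := Metric.eventually_nhds_iff_ball.1
    ((contDiff_cf e).continuous.continuousAt.eventually_ne h.e0)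
  set ε₀ := min ε ε' with hε₀
  have hε₀pos : 0 < ε₀ := lt_min hε hε'
  obtain ⟨ρ, hρ1, hρ2⟩ := exists_rat_btwn (show (0 : ℝ) < ε₀ / 2 by linarith)
  obtain ⟨q, hq⟩ := exists_qc s (ρ : ℝ) hρ1
  have hsub : ball (qc q) (ρ : ℝ) ⊆ ball s ε₀ := by
    intro x hx
    rw [mem_ball] at hx ⊢
    have := dist_triangle x (qc q) s
    linarith
  have hfull : ∃ η, FullB P e (qc q) (ρ : ℝ) η := by
    refine ⟨η, fun j => (h1 j).mono fun x hx => ?_, fun x hx => ⟨?_, ?_⟩⟩
    · exact ball_subset_ball (min_le_left _ _) (hsub hx)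
    · exact hb x (ball_subset_ball (min_le_right _ _) (hsub hx))
    · exact h2 x (ball_subset_ball (min_le_left _ _) (hsub hx))
  have hd : ∀ s : Fin p → ℂ, cf s e ≠ 0 → cf s d ≠ 0 := fun s' hs' => (h.good s' hs').2
  have hs : s ∈ ball (qc q) (ρ : ℝ) := by
    rw [mem_ball, dist_comm]
    exact hq
  obtain ⟨j, hj⟩ := ((hfull.choose_spec.2 s hs).2 θ).1 h.root
  refine ⟨grm P R d e (qc q) (ρ : ℝ) hd hfull j, ?_, hs, ?_, hfull.choose j, hj,
    hfull.choose_spec.1 j, fun s' hs' => ⟨(hfull.choose_spec.2 s' hs').1,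
      ((hfull.choose_spec.2 s' hs').2 _).2 ⟨j, rfl⟩⟩, fun s' => rfl⟩
  · simp only [GS, Set.mem_iUnion, Set.mem_singleton_iff]
    exact ⟨P, R, d, e, q, ρ, hd, hfull, j, rfl⟩
  · change vf R d s (hfull.choose j s) = y
    rw [hj]
    funext i
    have h3 := vf_mul R d s θ (hd s h.e0) i
    rw [h.val i] at h3
    exact (mul_left_cancel₀ (hd s h.e0) h3).symm

end TATE
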