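import Pool.Agent.Lib.TATE.GA.Gm

/-!
# TATE/GA: the line `s + z w`, the bad points, uniqueness off the bad points
-/

set_option autoImplicit false

open Polynomial Topology Metric

namespace TATE

theorem ln_zero {p : ℕ} (s w : Fin p → ℂ) : ln s w 0 = s := by
  funext i
  simp [ln]

theorem differentiable_ln {p : ℕ} (s w : Fin p → ℂ) : Differentiable ℂ (ln s w) := by
  rw [differentiable_pi]
  intro i
  exact (differentiable_const _).add (differentiable_id.mul (differentiable_const _))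

theorem continuous_ln {p : ℕ} (s w : Fin p → ℂ) : Continuous (ln s w) :=
  (differentiable_ln s w).continuous

theorem bad_countable {p : ℕ} (s w : Fin p → ℂ) (e : QS p) (h : cf s e ≠ 0) :
    {z : ℂ | cf (ln s w z) e = 0}.Countable := by
  set E : ℂ[X] := MvPolynomial.aeval (fun i => C (s i) + X * C (w i)) e with hE
  have hev : ∀ z : ℂ, E.eval z = cf (ln s w z) e := by
    intro z
    have h1 : (Polynomial.aeval z : ℂ[X] →ₐ[ℂ] ℂ).restrictScalars ℚ E = cf (ln s w z) e := by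
      rw [hE, ← AlgHom.comp_apply]
      have h2 : ((Polynomial.aeval z : ℂ[X] →ₐ[ℂ] ℂ).restrictScalars ℚ).comp
          (MvPolynomial.aeval fun i => C (s i) + X * C (w i)) =
          (MvPolynomial.aeval (ln s w z) : QS p →ₐ[ℚ] ℂ) := by
        refine MvPolynomial.algHom_ext fun i => ?_
        simp [ln]
        ring
      rw [h2]
      rfl
    rw [← h1]
    simp [Polynomial.aeval_def]
  have hne : E ≠ 0 := by
    intro h0
    apply h
    rw [← ln_zero s w, ← hev, h0, eval_zero]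
  refine (Set.Finite.subset (E.roots.toFinset.finite_toSet) fun z hz => ?_).countable
  have hz' : cf (ln s w z) e = 0 := hz
  rw [Finset.mem_coe, Multiset.mem_toFinset, Polynomial.mem_roots hne, IsRoot.def, hev]
  exact hz'

/-- the coordinate polynomials -/
theorem exists_coord {p k : ℕ} (s : Fin p → ℂ) (hs : AlgebraicIndependent ℚ s) (y : Fin k → ℂ)
    (hy : ∀ i, AlgO s (y i)) :
    ∃ (Q : Fin k → (QS p)[X]) (c : QS p), cf s c ≠ 0 ∧
      (∀ (i : Fin k) (s' : Fin p → ℂ) (y' : Fin k → ℂ), Spc s y s' y' →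
        (PS (Q i) s').eval (y' i) = 0) ∧
      ∀ s' : Fin p → ℂ, cf s' c ≠ 0 → ∀ (i : Fin k) (x : ℂ), (PS (Q i) s').eval x = 0 →
        (PS (derivative (Q i)) s').eval x ≠ 0 := by
  have hinj := cf_injective hs
  have h1 : ∀ i, ∃ (P U V : (QS p)[X]) (Δ : QS p), P.eval₂ (cf s) (y i) = 0 ∧ Δ ≠ 0 ∧
      U * P + V * derivative P = C Δ := by
    intro i
    obtain ⟨f, hf, hf0⟩ := algO_poly hs (hy i)
    obtain ⟨P, U, V, Δ, e1, -, -, e4, e5⟩ := kernel_gen (cf s) hinj (y i) f hf hf0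
    exact ⟨P, U, V, Δ, e1, e4, e5⟩
  choose Q U V Δ e1 e2 e3 using h1
  have hne : ∀ a : QS p, a ≠ 0 → cf s a ≠ 0 := fun a ha h0 => ha (hinj (by rw [h0, map_zero]))
  refine ⟨Q, ∏ i, Δ i, hne _ (Finset.prod_ne_zero_iff.2 fun i _ => e2 i), ?_, ?_⟩
  · intro i s' y' hS
    set f : MvPolynomial (Fin p ⊕ Fin k) ℚ :=
      (Q i).eval₂ (MvPolynomial.rename Sum.inl : QS p →ₐ[ℚ] _).toRingHom
        (MvPolynomial.X (Sum.inr i)) with hf
    have hfe : ∀ (t : Fin p → ℂ) (v : Fin k → ℂ),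
        MvPolynomial.aeval (Sum.elim t v) f = (Q i).eval₂ (cf t) (v i) := by
      intro t v
      have h2 := Polynomial.hom_eval₂ (Q i)
        (MvPolynomial.rename Sum.inl : QS p →ₐ[ℚ] MvPolynomial (Fin p ⊕ Fin k) ℚ).toRingHom
        (MvPolynomial.aeval (Sum.elim t v) : MvPolynomial (Fin p ⊕ Fin k) ℚ →ₐ[ℚ] ℂ).toRingHom
        (MvPolynomial.X (Sum.inr i))
      have h3 : (MvPolynomial.aeval (Sum.elim t v) :
          MvPolynomial (Fin p ⊕ Fin k) ℚ →ₐ[ℚ] ℂ).toRingHom.comp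
          (MvPolynomial.rename Sum.inl :
            QS p →ₐ[ℚ] MvPolynomial (Fin p ⊕ Fin k) ℚ).toRingHom = cf t := by
        ext a
        · simp [cf]
        · simp [cf]
      rw [h3] at h2
      have h4 : (MvPolynomial.aeval (Sum.elim t v) :
          MvPolynomial (Fin p ⊕ Fin k) ℚ →ₐ[ℚ] ℂ).toRingHom (MvPolynomial.X (Sum.inr i)) = v i :=
        MvPolynomial.aeval_X _ _
      rw [h4] at h2
      exact h2
    have h5 := hS f (by rw [hfe]; exact e1 i)
    rw [hfe] at h5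
    rw [PS_eval]
    exact h5
  · intro s' hs' i x hx
    rw [map_prod] at hs'
    exact good_of_bezout (e3 i) (Finset.prod_ne_zero_iff.1 hs' i (Finset.mem_univ i)) x hx

/-- local uniqueness off the bad points -/
theorem loc_unique {p k : ℕ} {s w : Fin p → ℂ} {y : Fin k → ℂ} {Q : Fin k → (QS p)[X]}
    {c : QS p} (h1 : ∀ (i : Fin k) (s' : Fin p → ℂ) (y' : Fin k → ℂ), Spc s y s' y' →
        (PS (Q i) s').eval (y' i) = 0)
    (h2 : ∀ s' : Fin p → ℂ, cf s' c ≠ 0 → ∀ (i : Fin k) (x : ℂ), (PS (Q i) s').eval x = 0 →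
        (PS (derivative (Q i)) s').eval x ≠ 0) (z₀ : ℂ) (hz : cf (ln s w z₀) c ≠ 0)
    (η η' : ℂ → (Fin k → ℂ)) (h : ∀ᶠ z in 𝓝 z₀, ContinuousAt η z ∧
        ContinuousAt η' z ∧ Spc s y (ln s w z) (η z) ∧ Spc s y (ln s w z) (η' z))
    (h0 : η z₀ = η' z₀) : ∀ᶠ z in 𝓝 z₀, η z = η' z := by
  obtain ⟨c1, c2, r1, r2⟩ := h.self_of_nhds
  have key : ∀ i, ∀ᶠ z in 𝓝 z₀, η z i = η' z i := by
    intro i
    have hroot := h1 i _ _ r1
    obtain ⟨ξ, -, -, -, h5⟩ := simple_root (Q i) (ln s w z₀) (η z₀ i) hroot (h2 _ hz i _ hroot)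
    have d1 : ContinuousAt (fun z => (ln s w z, η z i)) z₀ :=
      (continuous_ln s w).continuousAt.prodMk ((continuous_apply i).continuousAt.comp c1)
    have d2 : ContinuousAt (fun z => (ln s w z, η' z i)) z₀ :=
      (continuous_ln s w).continuousAt.prodMk ((continuous_apply i).continuousAt.comp c2)
    have h6 := d1.eventually h5
    have h5' : ∀ᶠ v in 𝓝 (ln s w z₀, η' z₀ i), Fv (Q i) v = 0 → ξ v.1 = v.2 := by
      rw [← h0]
      exact h5
    have h7 := d2.eventually h5'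
    filter_upwards [h, h6, h7] with z hz1 hz2 hz3
    exact (hz2 (h1 i _ _ hz1.2.2.1)).symm.trans (hz3 (h1 i _ _ hz1.2.2.2))
  filter_upwards [Filter.eventually_all.2 key] with z hz
  funext i
  exact hz i

/-- uniqueness along an interval -/
theorem path_unique {p k : ℕ} {s : Fin p → ℂ} {y : Fin k → ℂ} {Q : Fin k → (QS p)[X]}
    {c : QS p} (h1 : ∀ (i : Fin k) (s' : Fin p → ℂ) (y' : Fin k → ℂ), Spc s y s' y' →
        (PS (Q i) s').eval (y' i) = 0)
    (h2 : ∀ s' : Fin p → ℂ, cf s' c ≠ 0 → ∀ (i : Fin k) (x : ℂ), (PS (Q i) s').eval x = 0 →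
        (PS (derivative (Q i)) s').eval x ≠ 0) (a : ℝ → (Fin p → ℂ)) (ha : Continuous a)
    (u v : ℝ → (Fin k → ℂ)) (hu : ContinuousOn u (Set.Icc 0 1)) (hv : ContinuousOn v (Set.Icc 0 1))
    (hc : ∀ t ∈ Set.Icc (0 : ℝ) 1, cf (a t) c ≠ 0)
    (hu' : ∀ t ∈ Set.Icc (0 : ℝ) 1, Spc s y (a t) (u t))
    (hv' : ∀ t ∈ Set.Icc (0 : ℝ) 1, Spc s y (a t) (v t)) (t₀ : ℝ) (ht₀ : t₀ ∈ Set.Icc (0 : ℝ) 1)
    (h0 : u t₀ = v t₀) : ∀ t ∈ Set.Icc (0 : ℝ) 1, u t = v t := by
  intro t ht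
  funext i
  have hpre : PreconnectedSpace (Set.Icc (0 : ℝ) 1) :=
    Subtype.preconnectedSpace isPreconnected_Icc
  have cu : Continuous fun x : Set.Icc (0 : ℝ) 1 => u x i :=
    (continuous_apply i).comp (continuousOn_iff_continuous_domRestrict.1 hu)
  have cv : Continuous fun x : Set.Icc (0 : ℝ) 1 => v x i :=
    (continuous_apply i).comp (continuousOn_iff_continuous_domRestrict.1 hv)
  exact root_unique (X := Set.Icc (0 : ℝ) 1) (Q i) (fun x => a x) (fun x => u x i)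
    (fun x => v x i) (ha.comp continuous_subtype_val) cu cv
    (fun x => h1 i _ _ (hu' x x.2)) (fun x => h1 i _ _ (hv' x x.2))
    (fun x => h2 _ (hc x x.2) i _ (h1 i _ _ (hu' x x.2))) ⟨t₀, ht₀⟩
    (congrFun h0 i) ⟨t, ht⟩

end TATE
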