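import Pool.Agent.Lib.TATE.Iface

/-!
# TATE/GA: roots of a polynomial with coefficients in `ℚ[S]` as functions of `S`
-/

set_option autoImplicit false

open Topology Metric

namespace TATE

/-- the ring `ℚ[S]` -/
abbrev QS (p : ℕ) : Type := MvPolynomial (Fin p) ℚ

/-- the value of a coefficient at `s` -/
noncomputable def cf {p : ℕ} (s : Fin p → ℂ) : QS p →+* ℂ :=
  (MvPolynomial.aeval s : QS p →ₐ[ℚ] ℂ).toRingHom

/-- the polynomial at `s` -/
noncomputable def PS {p : ℕ} (P : Polynomial (QS p)) (s : Fin p → ℂ) : Polynomial ℂ :=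
  P.map (cf s)

/-- the value as a function of `s` and `x` -/
noncomputable def Fv {p : ℕ} (P : Polynomial (QS p)) (u : (Fin p → ℂ) × ℂ) : ℂ :=
  (PS P u.1).eval u.2

theorem contDiff_cf {p : ℕ} (f : QS p) : ContDiff ℂ ⊤ fun s : Fin p → ℂ => cf s f := by
  have h : (fun s : Fin p → ℂ => cf s f) =
      fun s => MvPolynomial.eval s (MvPolynomial.map (algebraMap ℚ ℂ) f) := by
    funext s
    rw [MvPolynomial.eval_map]
    rfl
  rw [h]
  exact (AnalyticOnNhd.eval_mvPolynomial (𝕜 := ℂ)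
    (MvPolynomial.map (algebraMap ℚ ℂ) f)).contDiff

theorem Fv_eq {p : ℕ} (P : Polynomial (QS p)) (u : (Fin p → ℂ) × ℂ) :
    Fv P u = ∑ i ∈ Finset.range (P.natDegree + 1), cf u.1 (P.coeff i) * u.2 ^ i := by
  unfold Fv PS
  rw [Polynomial.eval_map, Polynomial.eval₂_eq_sum_range]

theorem contDiff_Fv {p : ℕ} (P : Polynomial (QS p)) : ContDiff ℂ ⊤ (Fv P) := by
  have h : Fv P = fun u : (Fin p → ℂ) × ℂ =>
      ∑ i ∈ Finset.range (P.natDegree + 1), cf u.1 (P.coeff i) * u.2 ^ i := by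
    funext u
    exact Fv_eq P u
  rw [h]
  refine ContDiff.sum fun i _ => ?_
  exact ((contDiff_cf (P.coeff i)).comp contDiff_fst).mul (contDiff_snd.pow i)

theorem continuous_Fv {p : ℕ} (P : Polynomial (QS p)) : Continuous (Fv P) :=
  (contDiff_Fv P).continuous

/-- the partial derivative -/
theorem fderiv_Fv {p : ℕ} (P : Polynomial (QS p)) (u : (Fin p → ℂ) × ℂ) :
    (fderiv ℂ (Fv P) u ∘L ContinuousLinearMap.inr ℂ (Fin p → ℂ) ℂ) 1 =
      (PS P.derivative u.1).eval u.2 := by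
  have hd : HasFDerivAt (Fv P) (fderiv ℂ (Fv P) u) u :=
    ((contDiff_Fv P).differentiable (by simp) u).hasFDerivAt
  have h1 : HasDerivAt (fun x : ℂ => ((u.1, x) : (Fin p → ℂ) × ℂ)) (0, 1) u.2 :=
    (hasDerivAt_const u.2 u.1).prodMk (hasDerivAt_id u.2)
  have h2 : HasDerivAt (fun x : ℂ => Fv P (u.1, x)) (fderiv ℂ (Fv P) u (0, 1)) u.2 :=
    HasFDerivAt.comp_hasDerivAt (l := Fv P) (f := fun x : ℂ => ((u.1, x) : (Fin p → ℂ) × ℂ))
      u.2 hd h1
  have h3 : HasDerivAt (fun x : ℂ => Fv P (u.1, x)) ((PS P u.1).derivative.eval u.2) u.2 :=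
    (PS P u.1).hasDerivAt u.2
  have h4 := h2.unique h3
  rw [ContinuousLinearMap.comp_apply, ContinuousLinearMap.inr_apply, h4, PS, PS,
    Polynomial.derivative_map]

/-- **L1**: a simple root is a holomorphic function, locally unique -/
theorem simple_root {p : ℕ} (P : Polynomial (QS p)) (s₀ : Fin p → ℂ) (x₀ : ℂ)
    (h0 : (PS P s₀).eval x₀ = 0) (h1 : (PS P.derivative s₀).eval x₀ ≠ 0) :
    ∃ η : (Fin p → ℂ) → ℂ, η s₀ = x₀ ∧ (∀ᶠ s in 𝓝 s₀, DifferentiableAt ℂ η s) ∧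
      (∀ᶠ s in 𝓝 s₀, (PS P s).eval (η s) = 0) ∧
      ∀ᶠ v in 𝓝 (s₀, x₀), Fv P v = 0 → η v.1 = v.2 := by
  have cdf : ContDiffAt ℂ 1 (Fv P) (s₀, x₀) := ((contDiff_Fv P).of_le (by simp)).contDiffAt
  have hinv : (fderiv ℂ (Fv P) (s₀, x₀) ∘L
      ContinuousLinearMap.inr ℂ (Fin p → ℂ) ℂ).IsInvertible := by
    refine ⟨ContinuousLinearEquiv.unitsEquivAut ℂ (Units.mk0 _ h1), ?_⟩
    ext
    rw [fderiv_Fv]
    simp
  have hF0 : Fv P (s₀, x₀) = 0 := h0
  refine ⟨cdf.implicitFunction one_ne_zero hinv, cdf.implicitFunction_apply_self one_ne_zero hinv,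
    ?_, ?_, ?_⟩
  · have h2 := cdf.contDiffAt_implicitFunction one_ne_zero hinv
    exact (h2.eventually (by simp)).mono fun s hs => hs.differentiableAt (by simp)
  · have h2 := cdf.eventually_apply_implicitFunction one_ne_zero hinv
    rw [hF0] at h2
    exact h2
  · have h2 := cdf.eventually_apply_eq_iff_implicitFunction one_ne_zero hinv
    rw [hF0] at h2
    exact h2.mono fun v hv h => hv.1 h

end TATE
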