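import Pool.Agent.Lib.TATE.GA.Rt

/-!
# TATE/GA: the branches of the roots near a good point, uniqueness, lifting along a path
-/

set_option autoImplicit false

open Topology Metric

namespace TATE

/-- full degree and simple roots at `s` -/
def GoodAt {p : ℕ} (P : Polynomial (QS p)) (s : Fin p → ℂ) : Prop :=
  cf s P.leadingCoeff ≠ 0 ∧ ∀ x, (PS P s).eval x = 0 → (PS P.derivative s).eval x ≠ 0

theorem PS_natDegree {p : ℕ} {P : Polynomial (QS p)} {s : Fin p → ℂ}
    (h : cf s P.leadingCoeff ≠ 0) : (PS P s).natDegree = P.natDegree :=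
  Polynomial.natDegree_map_of_leadingCoeff_ne_zero (cf s) h

theorem PS_ne_zero {p : ℕ} {P : Polynomial (QS p)} {s : Fin p → ℂ}
    (h : cf s P.leadingCoeff ≠ 0) : PS P s ≠ 0 := by
  intro h0
  have h1 : (PS P s).coeff P.natDegree = 0 := by rw [h0, Polynomial.coeff_zero]
  rw [PS, Polynomial.coeff_map] at h1
  exact h h1

theorem card_roots_good {p : ℕ} {P : Polynomial (QS p)} {s : Fin p → ℂ} (h : GoodAt P s) :
    (PS P s).roots.toFinset.card = P.natDegree := by
  have hne := PS_ne_zero h.1
  have hnd : (PS P s).roots.Nodup := by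
    rw [Multiset.nodup_iff_count_le_one]
    intro x
    rw [Polynomial.count_roots]
    by_contra hlt
    rw [not_le, Polynomial.one_lt_rootMultiplicity_iff_isRoot hne] at hlt
    refine h.2 x hlt.1 ?_
    rw [PS, ← Polynomial.derivative_map]
    exact hlt.2
  rw [Multiset.toFinset_card_of_nodup hnd, IsAlgClosed.card_roots_eq_natDegree, PS_natDegree h.1]

/-- near a good point all roots are given by holomorphic functions -/
theorem branches {p : ℕ} (P : Polynomial (QS p)) (s₀ : Fin p → ℂ) (h : GoodAt P s₀) :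
    ∃ ε > 0, ∃ η : Fin P.natDegree → (Fin p → ℂ) → ℂ,
      (∀ j, DifferentiableOn ℂ (η j) (ball s₀ ε)) ∧
      ∀ s ∈ ball s₀ ε, ∀ x, (PS P s).eval x = 0 ↔ ∃ j, η j s = x := by
  have hne := PS_ne_zero h.1
  set e := Finset.equivFinOfCardEq (card_roots_good h) with he
  have hroot : ∀ j : Fin P.natDegree, (PS P s₀).eval ((e.symm j : ℂ)) = 0 := fun j => by
    have h1 := (e.symm j).2
    rw [Multiset.mem_toFinset, Polynomial.mem_roots hne] at h1
    exact h1
  choose η h1 h2 h3 h4 using fun j => simple_root P s₀ (e.symm j : ℂ) (hroot j) (h.2 _ (hroot j))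
  have hsep : ∀ j j' : Fin P.natDegree, j ≠ j' → ∀ᶠ s in 𝓝 s₀, η j s ≠ η j' s := by
    intro j j' hj
    have c1 : ContinuousAt (η j) s₀ := (h2 j).self_of_nhds.continuousAt
    have c2 : ContinuousAt (η j') s₀ := (h2 j').self_of_nhds.continuousAt
    have hne0 : η j s₀ ≠ η j' s₀ := by
      rw [h1, h1]
      intro heq
      exact hj (e.symm.injective (Subtype.ext heq))
    exact (ContinuousAt.ne_iff_eventually_ne c1 c2).1 hne0
  have hlead : ∀ᶠ s in 𝓝 s₀, cf s P.leadingCoeff ≠ 0 :=
    (contDiff_cf P.leadingCoeff).continuous.continuousAt.eventually_ne h.1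
  have hall : ∀ᶠ s in 𝓝 s₀, (∀ j, DifferentiableAt ℂ (η j) s) ∧
      (∀ j, (PS P s).eval (η j s) = 0) ∧ (∀ j j', j ≠ j' → η j s ≠ η j' s) ∧
      cf s P.leadingCoeff ≠ 0 := by
    refine (Filter.eventually_all.2 h2).and ((Filter.eventually_all.2 h3).and
      (Filter.Eventually.and ?_ hlead))
    refine Filter.eventually_all.2 fun j => Filter.eventually_all.2 fun j' => ?_
    by_cases hj : j = j'
    · exact Filter.Eventually.of_forall fun s hne => absurd hj hne
    · exact (hsep j j' hj).mono fun s hs _ => hs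
  obtain ⟨ε, hε, hb⟩ := Metric.eventually_nhds_iff_ball.1 hall
  refine ⟨ε, hε, η, fun j s hs => ((hb s hs).1 j).differentiableWithinAt, fun s hs x => ?_⟩
  obtain ⟨-, g2, g3, g4⟩ := hb s hs
  constructor
  · intro hx
    have hne' := PS_ne_zero g4
    have hinj : Function.Injective fun j => η j s := by
      intro j j' hjj
      by_contra hcon
      exact g3 j j' hcon hjj
    have hsub : Finset.univ.image (fun j => η j s) ⊆ (PS P s).roots.toFinset := by
      intro y hy
      obtain ⟨j, -, rfl⟩ := Finset.mem_image.1 hy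
      rw [Multiset.mem_toFinset, Polynomial.mem_roots hne']
      exact g2 j
    have hcard : (PS P s).roots.toFinset.card ≤ (Finset.univ.image fun j => η j s).card := by
      rw [Finset.card_image_of_injective _ hinj, Finset.card_univ, Fintype.card_fin]
      refine (Multiset.toFinset_card_le _).trans ?_
      refine (Polynomial.card_roots' _).trans ?_
      rw [PS_natDegree g4]
    have heq := Finset.eq_of_subset_of_card_le hsub hcard
    have hx' : x ∈ (PS P s).roots.toFinset := by
      rw [Multiset.mem_toFinset, Polynomial.mem_roots hne']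
      exact hx
    rw [← heq] at hx'
    obtain ⟨j, -, hj⟩ := Finset.mem_image.1 hx'
    exact ⟨j, hj⟩
  · rintro ⟨j, rfl⟩
    exact g2 j

/-- two continuous simple roots which agree at a point of a preconnected set are equal -/
theorem root_unique {X : Type*} [TopologicalSpace X] [PreconnectedSpace X] {p : ℕ}
    (P : Polynomial (QS p)) (a : X → (Fin p → ℂ)) (f g : X → ℂ) (ha : Continuous a)
    (hf : Continuous f) (hg : Continuous g) (h1 : ∀ x, (PS P (a x)).eval (f x) = 0)
    (h2 : ∀ x, (PS P (a x)).eval (g x) = 0)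
    (h3 : ∀ x, (PS P.derivative (a x)).eval (f x) ≠ 0) (x₀ : X) (h0 : f x₀ = g x₀) :
    ∀ x, f x = g x := by
  have hcl : IsClosed {x | f x = g x} := isClosed_eq hf hg
  have hop : IsOpen {x | f x = g x} := by
    rw [isOpen_iff_mem_nhds]
    intro x hx
    have hx' : f x = g x := hx
    obtain ⟨η, e1, e2, e3, e4⟩ := simple_root P (a x) (f x) (h1 x) (h3 x)
    have c1 : ContinuousAt (fun y => (a y, f y)) x := (ha.prodMk hf).continuousAt
    have c2 : ContinuousAt (fun y => (a y, g y)) x := (ha.prodMk hg).continuousAt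
    have e5 := c1.eventually e4
    have e4' : ∀ᶠ v in 𝓝 (a x, g x), Fv P v = 0 → η v.1 = v.2 := by
      rw [← hx']
      exact e4
    have e6 := c2.eventually e4'
    filter_upwards [e5, e6] with y hy1 hy2
    exact (hy1 (h1 y)).symm.trans (hy2 (h2 y))
  have huniv := IsClopen.eq_univ ⟨hcl, hop⟩ ⟨x₀, h0⟩
  intro x
  have hx : x ∈ {x | f x = g x} := by
    rw [huniv]
    trivial
  exact hx

end TATE
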