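import Pool.Agent.Lib.TATE.GA.Al3

/-!
# TATE/GA: the end value of a loop is a conjugate; countability
-/

set_option autoImplicit false

open Polynomial

namespace TATE

instance QS_countable (p : ℕ) : Countable (QS p) := by
  rw [← Cardinal.mk_le_aleph0_iff]
  refine MvPolynomial.cardinalMk_le_max_lift.trans ?_
  simp

instance QSX_countable (p : ℕ) : Countable (QS p)[X] := by
  rw [← Cardinal.mk_le_aleph0_iff]
  refine Polynomial.cardinalMk_le_max.trans ?_
  rw [sup_le_iff]
  exact ⟨Cardinal.mk_le_aleph0_iff.2 (QS_countable p), le_refl _⟩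

/-- two homomorphisms to `ℂ` with the same kernel differ by an automorphism -/
theorem exists_aut_of_ker {B : Type} [CommRing B] [Countable B] (u v : B →+* ℂ)
    (h : ∀ b, u b = 0 ↔ v b = 0) : ∃ τ : ℂ ≃+* ℂ, ∀ b, τ (u b) = v b := by
  have hJp : (RingHom.ker u).IsPrime := RingHom.ker_isPrime u
  let f : B ⧸ RingHom.ker u →+* ℂ := Ideal.Quotient.lift (RingHom.ker u) u fun g hg => hg
  let f' : B ⧸ RingHom.ker u →+* ℂ := Ideal.Quotient.lift (RingHom.ker u) v
    fun g hg => (h g).1 hg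
  have hf : Function.Injective f := by
    rw [injective_iff_map_eq_zero]
    intro b hb
    obtain ⟨g, rfl⟩ := Ideal.Quotient.mk_surjective b
    rw [Ideal.Quotient.eq_zero_iff_mem]
    exact hb
  have hf' : Function.Injective f' := by
    rw [injective_iff_map_eq_zero]
    intro b hb
    obtain ⟨g, rfl⟩ := Ideal.Quotient.mk_surjective b
    rw [Ideal.Quotient.eq_zero_iff_mem]
    exact (h g).2 hb
  have hc : Countable (B ⧸ RingHom.ker u) :=
    Function.Surjective.countable (Ideal.Quotient.mk_surjective (I := RingHom.ker u))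
  have hdom : IsDomain (B ⧸ RingHom.ker u) := Ideal.Quotient.isDomain (RingHom.ker u)
  have hc' := Pool.Agent.A640.Tate.countable_fractionRing (B ⧸ RingHom.ker u)
  let F : FractionRing (B ⧸ RingHom.ker u) →+* ℂ := IsFractionRing.lift hf
  let F' : FractionRing (B ⧸ RingHom.ker u) →+* ℂ := IsFractionRing.lift hf'
  obtain ⟨τ, hτ⟩ := Pool.Agent.A640.Tate.exists_aut_comp F F'
  refine ⟨τ, fun b => ?_⟩
  have h1 := hτ (algebraMap _ _ (Ideal.Quotient.mk (RingHom.ker u) b))
  have h2 : F (algebraMap _ _ (Ideal.Quotient.mk (RingHom.ker u) b)) = u b :=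
    IsFractionRing.lift_algebraMap hf _
  have h3 : F' (algebraMap _ _ (Ideal.Quotient.mk (RingHom.ker u) b)) = v b :=
    IsFractionRing.lift_algebraMap hf' _
  rw [h2, h3] at h1
  exact h1

theorem exists_sigma {p k : ℕ} {s : Fin p → ℂ} {y : Fin k → ℂ} {P : (QS p)[X]}
    {R : Fin k → (QS p)[X]} {d e : QS p} {θ : ℂ} (h : IsDat s y P R d e θ) (θ' : ℂ)
    (y' : Fin k → ℂ) (hθ' : (PS P s).eval θ' = 0)
    (hy' : ∀ i, (PS (R i) s).eval θ' = cf s d * y' i) : ∃ σ ∈ Fix s ∅, ∀ i, y' i = σ (y i) := by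
  have hmem : ∀ x : ℂ, (PS P s).eval x = 0 → ∀ g : (QS p)[X], g.eval₂ (cf s) x = 0 ↔ P ∣ g := by
    intro x hx g
    constructor
    · exact h.ker x hx g
    · rintro ⟨q, rfl⟩
      rw [eval₂_mul, ← PS_eval P, hx, zero_mul]
  obtain ⟨τ, hτ⟩ := exists_aut_of_ker (eval₂RingHom (cf s) θ) (eval₂RingHom (cf s) θ')
    fun g => (hmem θ h.root g).trans (hmem θ' hθ' g).symm
  have key : ∀ g : (QS p)[X], τ (g.eval₂ (cf s) θ) = g.eval₂ (cf s) θ' := fun g => hτ g
  have hcf : ∀ a : QS p, τ (cf s a) = cf s a := by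
    intro a
    have h1 := key (C a)
    rwa [eval₂_C, eval₂_C] at h1
  refine ⟨τ, ⟨fun i => ?_, fun a ha => absurd ha (Set.notMem_empty a)⟩, fun i => ?_⟩
  · have h1 := hcf (MvPolynomial.X i)
    have h2 : cf s (MvPolynomial.X i) = s i := MvPolynomial.aeval_X s i
    rwa [h2] at h1
  · have hd := (h.good s h.e0).2
    have h1 := key (R i)
    rw [← PS_eval, ← PS_eval, h.val i, hy' i, map_mul, hcf] at h1
    exact (mul_left_cancel₀ hd h1).symm

end TATE
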